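import Mathlib

set_option autoImplicit false

/-! Project GP (helper162): complete intersections are cut out by their equations, the algebra. -/

open MvPolynomial

namespace Pool.Agent.N681.GP

theorem cic_core {M c D : ℕ} {K : Type} [Field K] [Algebra ℂ K]
    (F : Fin c → MvPolynomial (Fin (M + 2)) ℂ) (d : Fin c → ℕ) (x : Fin (M + 2) → K)
    (hhom : ∀ i, (F i).IsHomogeneous (d i)) (hone : x 0 = 1)
    (hgen : ∀ (e : ℕ) (P : MvPolynomial (Fin (M + 2)) ℂ), P.IsHomogeneous e →
      (aeval x P = 0 ↔ P ∈ (Ideal.span (Set.range F)).radical))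
    (hd : ∀ i, d i ≤ D) (hD : 1 ≤ D) (P : MvPolynomial (Fin (M + 2)) ℂ) (hP : aeval x P = 0) :
    P ∈ (Ideal.span {Q : MvPolynomial (Fin (M + 2)) ℂ |
      Q.totalDegree ≤ D ∧ aeval x Q = 0}).radical := by
  set I := Ideal.span {Q : MvPolynomial (Fin (M + 2)) ℂ | Q.totalDegree ≤ D ∧ aeval x Q = 0}
    with hI
  have h1 : Ideal.span (Set.range F) ≤ I := by
    rw [Ideal.span_le]
    rintro _ ⟨i, rfl⟩
    apply Ideal.subset_span
    refine ⟨(hhom i).totalDegree_le.trans (hd i), ?_⟩
    exact (hgen (d i) (F i) (hhom i)).2 (Ideal.le_radical (Ideal.subset_span ⟨i, rfl⟩))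
  have h2 : (X 0 - 1 : MvPolynomial (Fin (M + 2)) ℂ) ∈ I := by
    apply Ideal.subset_span
    constructor
    · refine (totalDegree_sub _ _).trans ?_
      rw [totalDegree_X, totalDegree_one]
      simpa using hD
    · simp [hone]
  have h3 : ∀ n : ℕ, (1 - X 0 ^ n : MvPolynomial (Fin (M + 2)) ℂ) ∈ I := by
    intro n
    have h4 : (X 0 - 1 : MvPolynomial (Fin (M + 2)) ℂ) ∣ X 0 ^ n - 1 ^ n := sub_dvd_pow_sub_pow _ _ n
    rw [one_pow] at h4
    have h5 := I.mem_of_dvd h4 h2
    have h6 := I.neg_mem h5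
    rwa [neg_sub] at h6
  set N := P.totalDegree with hN
  set P' : MvPolynomial (Fin (M + 2)) ℂ :=
    ∑ k ∈ Finset.range (N + 1), homogeneousComponent k P * X 0 ^ (N - k) with hP'
  have h4 : P'.IsHomogeneous N := by
    apply IsHomogeneous.sum
    intro k hk
    have h5 := (homogeneousComponent_isHomogeneous k P).mul
      ((isHomogeneous_X ℂ (0 : Fin (M + 2))).pow (N - k))
    have h6 : k + 1 * (N - k) = N := by
      have := Finset.mem_range.1 hk
      omega
    rwa [h6] at h5
  have hsum : ∑ k ∈ Finset.range (N + 1), homogeneousComponent k P = P := sum_homogeneousComponent P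
  have h5 : aeval x P' = 0 := by
    rw [hP', map_sum]
    have h6 : ∀ k ∈ Finset.range (N + 1),
        aeval x (homogeneousComponent k P * X 0 ^ (N - k)) = aeval x (homogeneousComponent k P) := by
      intro k _
      rw [map_mul, map_pow, aeval_X, hone, one_pow, mul_one]
    rw [Finset.sum_congr rfl h6, ← map_sum, hsum, hP]
  have h6 : P' ∈ I.radical := Ideal.radical_mono h1 ((hgen N P' h4).1 h5)
  have h7 : P - P' ∈ I := by
    have h8 : P - P' = ∑ k ∈ Finset.range (N + 1), homogeneousComponent k P * (1 - X 0 ^ (N - k)) := by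
      conv_lhs => rw [← hsum]
      rw [hP', ← Finset.sum_sub_distrib]
      refine Finset.sum_congr rfl fun k _ => ?_
      rw [mul_sub, mul_one]
    rw [h8]
    exact I.sum_mem fun k _ => I.mul_mem_left _ (h3 _)
  have h8 : P = P' + (P - P') := by ring
  rw [h8]
  exact I.radical.add_mem h6 (Ideal.le_radical h7)

end Pool.Agent.N681.GP
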