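import Pool.Agent.N162.GP.Stm2
import Pool.Agent.N681.GP.CicCore

/-! Project GP (helper162), part CIC: complete intersections are cut out by their equations. -/

set_option autoImplicit false

namespace Pool.Agent.N681.GP

theorem cic_ : Pool.Agent.N162.GP.StCIC := by
  intro M c D K _ _ F d x h hd hD P hP
  exact cic_core F d x h.hom h.one h.generic hd hD P hP

end Pool.Agent.N681.GP
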